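import Pool.Agent.Y349.OC.Final

set_option autoImplicit false

namespace Pool.Agent.Results.MP_cfcaf3_co.PairsActionRate

/-- `f_n(G)`: the number of orbits of a group `G`, acting on a set `X`, on the set of all
`n`-element subsets of `X`. -/
noncomputable def orbitCount (G X : Type) [Group G] [MulAction G X] [DecidableEq X] (n : ℕ) : ℕ :=
  Nat.card (MulAction.orbitRel.Quotient G (Set.powersetCard X n))

/-- `Sym(Ω)` acting on the `2`-element subsets of `Ω`: explicit asymptotics of `f_n` with a power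
saving error term. The equation `w * exp w = x` has, for every real `x ≥ 0`, exactly one solution
`w ≥ 0` (the value of the Lambert function at `x`), and there is `C` such that, for all `n ≥ 1`,
with `w ≥ 0` given by `w * exp w = 2 n`, both ratios
`f_n / (B_{2n} / (2 ^ n n!) * exp (- w / 2 - w ^ 2 / 4))` and
`f_n / (exp (2 n (w - 1 + 1 / w) - w / 2 - w ^ 2 / 4 - 1) / (2 ^ n n! sqrt (w + 1)))`
differ from `1` by at most `C * n ^ (-1/10)`; here `B_k` is the `k`-th Bell number. -/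
theorem result (Ω : Type) [DecidableEq Ω] [Infinite Ω] [Countable Ω] :
    (∀ x : ℝ, 0 ≤ x → ∃! w : ℝ, 0 ≤ w ∧ w * Real.exp w = x) ∧
    ∃ C : ℝ, ∀ n : ℕ, 1 ≤ n → ∀ w : ℝ, 0 ≤ w → w * Real.exp w = 2 * n →
      |(orbitCount (Equiv.Perm Ω) (Set.powersetCard Ω 2) n : ℝ) /
          ((Nat.bell (2 * n) : ℝ) / (2 ^ n * (n.factorial : ℝ)) *
            Real.exp (-(w / 2) - w ^ 2 / 4)) - 1| ≤
        C * (n : ℝ) ^ (-(1 / 10) : ℝ) ∧
      |(orbitCount (Equiv.Perm Ω) (Set.powersetCard Ω 2) n : ℝ) /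
          (Real.exp (2 * n * (w - 1 + 1 / w) - w / 2 - w ^ 2 / 4 - 1) /
            (2 ^ n * (n.factorial : ℝ) * Real.sqrt (w + 1))) - 1| ≤
        C * (n : ℝ) ^ (-(1 / 10) : ℝ) := by
  refine ⟨?_, ?_⟩
  · intro x hx
    obtain ⟨w, hw0, hw⟩ := Pool.Agent.H244R2.exists_lambert hx
    refine ⟨w, ⟨hw0, hw⟩, ?_⟩
    rintro v ⟨hv0, hv⟩
    rw [Pool.Agent.Y349.OC.lamW_unique hv0 hv, Pool.Agent.Y349.OC.lamW_unique hw0 hw]
  · obtain ⟨K₁, -, h1⟩ := Pool.Agent.Y349.OC.graph_bell (Ω := Ω)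
    obtain ⟨K₂, -, h2⟩ := Pool.Agent.Y349.OC.graph_elem (Ω := Ω)
    obtain ⟨C₁, hC₁⟩ := Pool.Agent.Y349.OC.all_of_eventually h1
    obtain ⟨C₂, hC₂⟩ := Pool.Agent.Y349.OC.all_of_eventually h2
    refine ⟨max C₁ C₂, fun n hn w hw0 hw => ?_⟩
    have hpos : 0 ≤ (n : ℝ) ^ (-(1 / 10) : ℝ) := by positivity
    have hw' : w * Real.exp w = ((2 * n : ℕ) : ℝ) := by push_cast; exact hw
    have hwl := Pool.Agent.Y349.OC.lamW_unique hw0 hw'
    have h3 := hC₁ n hn
    have h4 := hC₂ n hn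
    rw [← hwl] at h3 h4
    exact ⟨h3.trans (mul_le_mul_of_nonneg_right (le_max_left _ _) hpos),
      h4.trans (mul_le_mul_of_nonneg_right (le_max_right _ _) hpos)⟩

end Pool.Agent.Results.MP_cfcaf3_co.PairsActionRate
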